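import Pool.Agent.Helper55.K3.frame

/-!
# Heights of hyperbolic elements: `c0`, `cancel`, `move`
-/

set_option autoImplicit false
set_option linter.dupNamespace false

open Set Filter Topology

namespace Pool.Agent.Helper55.K3.cancel

open Pool.Agent.Helper77.K3 Pool.Agent.Helper55.K3.frame

lemma fun_coord (f : E →ₗ[ℝ] ℝ) (x : E) :
    f x = f (e 0) * x 0 + f (e 1) * x 1 + f (e 2) * x 2 := by
  conv_lhs => rw [Helper33.K3.sum_e x]
  rw [map_add, map_add, map_smul, map_smul, map_smul, smul_eq_mul, smul_eq_mul, smul_eq_mul]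
  ring

/-- Every plane meets `Ω`. -/
lemma no_plane (hF2 : S_F2) (D : KData) {v w z : E} (h : Ind3 v w z) (p : E) :
    ∃ a b : ℝ, p + a • v + b • w ∈ D.Ω := by
  obtain ⟨f, fv, fw, fz⟩ := exists_fun h 0 0 1
  have ha : (fun i => f (e i) : E) ≠ 0 := by
    intro h0
    have h1 : ∀ i, f (e i) = 0 := fun i => congrFun h0 i
    have h2 := fun_coord f z
    rw [h1, h1, h1, fz] at h2
    norm_num at h2
  obtain ⟨x, hx, hxf⟩ := hF2 D (fun i => f (e i)) (f p) ha
  have h3 : f x = f p := by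
    rw [fun_coord f x]
    exact hxf
  obtain ⟨a, b, c, habc⟩ := span3 h (x - p)
  have h4 : c = 0 := by
    have h5 := congrArg f habc
    rw [map_sub, h3, sub_self, map_add, map_add, map_smul, map_smul, map_smul, fv, fw, fz] at h5
    simpa using h5.symm
  refine ⟨a, b, ?_⟩
  have h6 : p + a • v + b • w = x := by
    have h7 : x = p + (x - p) := by abel
    rw [h7, habc, h4]
    module
  rwa [h6]

lemma cofinite_of_ne {δ : ℕ → Aff3} (h : ∀ g, ∀ᶠ n in atTop, δ n ≠ g) :
    Tendsto δ atTop cofinite := by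
  rw [Tendsto, le_cofinite_iff_eventually_ne]
  intro g
  exact h g

lemma cofinite_of_fun {δ : ℕ → Aff3} (F : Aff3 → ℝ) (h : Tendsto (fun n => F (δ n)) atTop atTop) :
    Tendsto δ atTop cofinite := by
  refine cofinite_of_ne fun g => ?_
  filter_upwards [h.eventually_gt_atTop (F g)] with n hn he
  rw [he] at hn
  exact lt_irrefl _ hn

lemma pow_inv_mul {μ : ℝ} (h : 1 < μ) (n : ℕ) (x : ℝ) : μ ^ n * (μ⁻¹ ^ n * x) = x := by
  rw [← mul_assoc, ← mul_pow, mul_inv_cancel₀ (by linarith), one_pow, one_mul]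

lemma tendsto_inv_pow {μ : ℝ} (h : 1 < μ) : Tendsto (fun n : ℕ => μ⁻¹ ^ n) atTop (𝓝 0) :=
  tendsto_pow_atTop_nhds_zero_of_lt_one (inv_nonneg.2 (by linarith)) (inv_lt_one_of_one_lt₀ h)

/-- Powers of a hyperbolic element leave every finite set. -/
lemma pow_cofinite {γ : Aff3} {μ c : ℝ} {p u s : E} (h : HypF γ μ c p u s) :
    Tendsto (fun n : ℕ => γ ^ n) atTop cofinite := by
  obtain ⟨f, f0, fu, fs⟩ := exists_fun h.2.2.2.2.2 0 1 0
  refine cofinite_of_fun (fun g => f (g.linear u)) ?_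
  have h1 : (fun n : ℕ => f ((γ ^ n).linear u)) = fun n => μ ^ n := by
    funext n
    rw [linear_pow_eigen h.2.2.1, map_smul, fu, smul_eq_mul, mul_one]
  rw [h1]
  exact tendsto_pow_atTop_atTop_of_one_lt h.1

theorem c0 (hP1 : S_P1) (hF2 : S_F2) : S_c0 := by
  intro D γ μ p u s hK hγ h
  have hμ := h.1
  have key : ∀ a b : ℝ, p + b • s ∈ D.K ∨ p + a • u ∈ D.K := by
    intro a b
    refine hP1 D (fun n => γ ^ n) (fun n => p + (0 : ℝ) • e 0 + (μ⁻¹ ^ n * a) • u + b • s) _ _
      (fun n => pow_mem hγ n) (pow_cofinite h) ?_ ?_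
    · have h1 : Tendsto (fun n : ℕ => p + (0 : ℝ) • (e 0 : E) + (μ⁻¹ ^ n * a) • u + b • s) atTop
          (𝓝 (p + (0 : ℝ) • (e 0 : E) + ((0 : ℝ) * a) • u + b • s)) :=
        (tendsto_const_nhds.add (((tendsto_inv_pow hμ).mul_const a).smul_const u)).add_const _
      have h2 : p + (0 : ℝ) • (e 0 : E) + ((0 : ℝ) * a) • u + b • s = p + b • s := by
        simp
      rwa [h2] at h1
    · have h0 : ∀ n : ℕ, (γ ^ n) (p + (0 : ℝ) • e 0 + (μ⁻¹ ^ n * a) • u + b • s) =
          p + a • u + (μ⁻¹ ^ n * b) • s := by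
        intro n
        rw [pow_apply h, pow_inv_mul hμ]
        simp
      have h1 : Tendsto (fun n : ℕ => p + a • u + (μ⁻¹ ^ n * b) • s) atTop
          (𝓝 (p + a • u + ((0 : ℝ) * b) • s)) :=
        tendsto_const_nhds.add (((tendsto_inv_pow hμ).mul_const b).smul_const s)
      have h2 : p + a • u + ((0 : ℝ) * b) • s = p + a • u := by simp
      rw [h2] at h1
      refine h1.congr fun n => (h0 n).symm
  by_cases hall : ∀ a : ℝ, p + a • u ∈ D.K
  · have hI : Ind3 u (e 0) s := by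
      have h3 := ind3_iff.1 h.2.2.2.2.2
      refine ind3_iff.2 fun x y z hxyz => ?_
      obtain ⟨h4, h5, h6⟩ := h3 y x z (by rw [← hxyz]; abel)
      exact ⟨h5, h4, h6⟩
    obtain ⟨a, b, hab⟩ := no_plane hF2 D hI p
    exact hK _ (hall a) b hab
  · push Not at hall
    obtain ⟨a, ha⟩ := hall
    have hI : Ind3 s (e 0) u := by
      have h3 := ind3_iff.1 h.2.2.2.2.2
      refine ind3_iff.2 fun x y z hxyz => ?_
      obtain ⟨h4, h5, h6⟩ := h3 y z x (by rw [← hxyz]; abel)
      exact ⟨h6, h4, h5⟩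
    obtain ⟨b, t, hbt⟩ := no_plane hF2 D hI p
    rcases key a b with h1 | h1
    · exact hK _ h1 t hbt
    · exact ha h1

theorem cancel (hP1 : S_P1) (hF2 : S_F2) : S_cancel := by
  intro D γ γ' μ μ' c p u s p' u' s' hK hγ hγ' h h' hI
  have hμ := h.1
  have hμ' := h'.1
  have hIi := ind3_iff.1 hI
  obtain ⟨k0, k1, k2, hk⟩ := span3 h.2.2.2.2.2 u'
  have hk1 : k1 ≠ 0 := by
    intro h0
    have h1 := hIi k0 k2 (-1) (by
      rw [hk, h0]
      module)
    have h2 := h1.2.2
    norm_num at h2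
  obtain ⟨s1, s2, s3, hs⟩ := span3 h'.2.2.2.2.2 s
  have hs3 : s3 ≠ 0 := by
    intro h0
    have h1 := hIi s1 (-1) s2 (by
      rw [hs, h0]
      module)
    have h2 := h1.2.1
    norm_num at h2
  obtain ⟨p1, p2, p3, hp⟩ := span3 h'.2.2.2.2.2 (p - p')
  have hpp : p = p' + p1 • e 0 + p2 • u' + p3 • s' := by
    have h1 : p = p' + (p - p') := by abel
    rw [h1, hp]
    abel
  have h'i : HypF γ'⁻¹ μ' c p' s' u' := by
    have := hyp_inv h'
    rwa [neg_neg] at this
  -- the sequence leaves every finite set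
  have hcof : Tendsto (fun n : ℕ => γ ^ n * γ' ^ n) atTop cofinite := by
    obtain ⟨f, f0, fu, fs⟩ := exists_fun h.2.2.2.2.2 0 1 0
    refine cofinite_of_fun (fun g => |f (g.linear u')|) ?_
    have h1 : (fun n : ℕ => |f ((γ ^ n * γ' ^ n).linear u')|) = fun n => (μ' * μ) ^ n * |k1| := by
      funext n
      have e0 : (γ ^ n).linear (e 0) = e 0 := by
        have := linear_pow_eigen (k := 1) (by rw [h.2.1, one_smul]) n
        rwa [one_pow, one_smul] at this
      have e1 : (γ ^ n).linear u' = k0 • e 0 + (k1 * μ ^ n) • u + (k2 * μ⁻¹ ^ n) • s := by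
        rw [hk, map_add, map_add, map_smul, map_smul, map_smul, e0, linear_pow_eigen h.2.2.1,
          linear_pow_eigen h.2.2.2.1, smul_smul, smul_smul]
      have e2 : f ((γ ^ n).linear u') = k1 * μ ^ n := by
        rw [e1, map_add, map_add, map_smul, map_smul, map_smul, f0, fu, fs]
        simp
      rw [linear_mul, linear_pow_eigen h'.2.2.1, map_smul, map_smul, e2, smul_eq_mul]
      rw [abs_mul, abs_mul, abs_pow, abs_pow, abs_of_pos (show (0 : ℝ) < μ' by linarith),
        abs_of_pos (show (0 : ℝ) < μ by linarith), mul_pow]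
      ring
    show Tendsto (fun n : ℕ => |f ((γ ^ n * γ' ^ n).linear u')|) atTop atTop
    rw [h1]
    exact (tendsto_pow_atTop_atTop_of_one_lt (by nlinarith)).atTop_mul_const (abs_pos.2 hk1)
  set t0 : ℝ := -p1 + p3 / s3 * s1 with ht0
  have key : ∀ a b : ℝ, p' + b • s' ∈ D.K ∨ p + t0 • e 0 + a • u ∈ D.K := by
    intro a b
    set z : ℕ → ℝ := fun n => μ⁻¹ ^ n * (a / k1) with hz
    set y : ℕ → ℝ := fun n => (μ'⁻¹ ^ n * b - p3) / s3 with hy
    set x : ℕ → ℝ := fun n => -(n * c) - p1 - y n * s1 with hx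
    have hzlim : Tendsto z atTop (𝓝 0) := by
      have := (tendsto_inv_pow hμ).mul_const (a / k1)
      rwa [zero_mul] at this
    have hylim : Tendsto y atTop (𝓝 (-(p3 / s3))) := by
      have h1 := (((tendsto_inv_pow hμ').mul_const b).sub_const p3).div_const s3
      have h2 : ((0 : ℝ) * b - p3) / s3 = -(p3 / s3) := by ring
      rwa [h2] at h1
    let w : ℕ → E := fun n => p + x n • e 0 + y n • s + z n • u'
    -- the start
    have hstart : ∀ n, (γ'⁻¹ ^ n) (w n) =
        p' + b • s' + (μ'⁻¹ ^ n * (p2 + y n * s2 + z n)) • u' := by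
      intro n
      have h1 : w n = p' + (-(n * c)) • e 0 + (μ'⁻¹ ^ n * b) • s' + (p2 + y n * s2 + z n) • u' := by
        have h2 : μ'⁻¹ ^ n * b = p3 + y n * s3 := by
          simp only [hy]
          field_simp
          ring
        rw [h2]
        simp only [w, hx]
        conv_lhs => rw [hs]
        rw [hpp]
        module
      rw [h1, pow_apply h'i, pow_inv_mul hμ']
      simp
    have hend : ∀ n, (γ ^ n) (w n) =
        p + (-p1 - y n * s1 + z n * k0) • e 0 + a • u + (μ⁻¹ ^ n * (y n + z n * k2)) • s := by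
      intro n
      have h1 : w n = p + (x n + z n * k0) • e 0 + (μ⁻¹ ^ n * a) • u + (y n + z n * k2) • s := by
        have h2 : μ⁻¹ ^ n * a = z n * k1 := by
          simp only [hz]
          field_simp
        rw [h2]
        simp only [w]
        rw [hk]
        module
      rw [h1, pow_apply h, pow_inv_mul hμ]
      congr 3
      simp only [hx]
      congr 1
      ring
    refine hP1 D (fun n => γ ^ n * γ' ^ n) (fun n => (γ'⁻¹ ^ n) (w n)) _ _
      (fun n => mul_mem (pow_mem hγ n) (pow_mem hγ' n)) hcof ?_ ?_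
    · have h1 : Tendsto (fun n : ℕ => p' + b • s' + (μ'⁻¹ ^ n * (p2 + y n * s2 + z n)) • u') atTop
          (𝓝 (p' + b • s' + ((0 : ℝ) * (p2 + -(p3 / s3) * s2 + 0)) • u')) :=
        tendsto_const_nhds.add (((tendsto_inv_pow hμ').mul
          (((hylim.mul_const s2).const_add p2).add hzlim)).smul_const u')
      have h2 : p' + b • s' + ((0 : ℝ) * (p2 + -(p3 / s3) * s2 + 0)) • u' = p' + b • s' := by
        simp
      rw [h2] at h1
      exact h1.congr fun n => (hstart n).symm
    · have h0 : ∀ n, (γ ^ n * γ' ^ n) ((γ'⁻¹ ^ n) (w n)) = (γ ^ n) (w n) := by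
        intro n
        rw [mul_apply, ← mul_apply (γ' ^ n), inv_pow, mul_inv_cancel]
        rfl
      have h1 : Tendsto (fun n : ℕ => p + (-p1 - y n * s1 + z n * k0) • (e 0 : E) + a • u +
          (μ⁻¹ ^ n * (y n + z n * k2)) • s) atTop
          (𝓝 (p + (-p1 - -(p3 / s3) * s1 + 0 * k0) • (e 0 : E) + a • u +
            ((0 : ℝ) * (-(p3 / s3) + 0 * k2)) • s)) :=
        ((((((hylim.mul_const s1).const_sub (-p1)).add (hzlim.mul_const k0)).smul_const
          (e 0 : E)).const_add p).add_const _).add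
          (((tendsto_inv_pow hμ).mul (hylim.add (hzlim.mul_const k2))).smul_const s)
      have h2 : p + (-p1 - -(p3 / s3) * s1 + 0 * k0) • (e 0 : E) + a • u +
            ((0 : ℝ) * (-(p3 / s3) + 0 * k2)) • s = p + t0 • e 0 + a • u := by
        rw [ht0]
        module
      rw [h2] at h1
      refine h1.congr fun n => ?_
      rw [h0, hend]
  by_cases hall : ∀ a : ℝ, p + t0 • e 0 + a • u ∈ D.K
  · have hI2 : Ind3 u (e 0) s := by
      have h3 := ind3_iff.1 h.2.2.2.2.2
      refine ind3_iff.2 fun x y z hxyz => ?_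
      obtain ⟨h4, h5, h6⟩ := h3 y x z (by rw [← hxyz]; abel)
      exact ⟨h5, h4, h6⟩
    obtain ⟨a, b, hab⟩ := no_plane hF2 D hI2 (p + t0 • e 0)
    exact hK _ (hall a) b hab
  · push Not at hall
    obtain ⟨a, ha⟩ := hall
    have hI2 : Ind3 s' (e 0) u' := by
      have h3 := ind3_iff.1 h'.2.2.2.2.2
      refine ind3_iff.2 fun x y z hxyz => ?_
      obtain ⟨h4, h5, h6⟩ := h3 y z x (by rw [← hxyz]; abel)
      exact ⟨h6, h4, h5⟩
    obtain ⟨b, t, hbt⟩ := no_plane hF2 D hI2 p'
    rcases key a b with h1 | h1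
    · exact hK _ h1 t hbt
    · exact ha h1

theorem move (hP1 : S_P1) (hF2 : S_F2) : S_move := by
  intro D γ h μ c p u s hK hγ hh hf hl hI
  have h1 := hyp_conj h 1 (hyp_inv hf) (by rw [hl, one_smul]) one_ne_zero
  rw [one_mul] at h1
  exact cancel hP1 hF2 D γ (h * γ⁻¹ * h⁻¹) μ μ c p u s (h p) (h.linear s) (h.linear u) hK hγ
    (mul_mem (mul_mem hh (inv_mem hγ)) (inv_mem hh)) hf h1 hI

end Pool.Agent.Helper55.K3.cancel
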