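import Pool.Agent.Helper77.K3.DefsII
import Pool.Agent.Helper33.K3.coord

/-!
# Frames of hyperbolic elements
-/

set_option autoImplicit false

open Set Filter Topology

namespace Pool.Agent.Helper55.K3.frame

open Pool.Agent.Helper77.K3

/-! ## Three vectors -/

lemma ind3_iff {a b c : E} : Ind3 a b c ↔
    ∀ x y z : ℝ, x • a + y • b + z • c = 0 → x = 0 ∧ y = 0 ∧ z = 0 := by
  rw [Ind3, Fintype.linearIndependent_iff]
  constructor
  · intro h x y z hxyz
    have h1 := h ![x, y, z] (by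
      rw [Fin.sum_univ_three]
      simpa using hxyz)
    exact ⟨h1 0, h1 1, h1 2⟩
  · intro h f hf i
    rw [Fin.sum_univ_three] at hf
    have h1 := h (f 0) (f 1) (f 2) (by simpa using hf)
    fin_cases i
    · exact h1.1
    · exact h1.2.1
    · exact h1.2.2

lemma span3 {a b c : E} (h : Ind3 a b c) (v : E) : ∃ x y z : ℝ, v = x • a + y • b + z • c := by
  let B := basisOfLinearIndependentOfCardEqFinrank h (by simp)
  have hB : ⇑B = ![a, b, c] := coe_basisOfLinearIndependentOfCardEqFinrank h (by simp)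
  refine ⟨B.repr v 0, B.repr v 1, B.repr v 2, ?_⟩
  conv_lhs => rw [← B.sum_repr v]
  rw [Fin.sum_univ_three, hB]
  rfl

lemma exists_fun {a b c : E} (h : Ind3 a b c) (x y z : ℝ) :
    ∃ f : E →ₗ[ℝ] ℝ, f a = x ∧ f b = y ∧ f c = z := by
  let B := basisOfLinearIndependentOfCardEqFinrank h (by simp)
  have hB : ⇑B = ![a, b, c] := coe_basisOfLinearIndependentOfCardEqFinrank h (by simp)
  have h0 : B 0 = a := by rw [hB]; rfl
  have h1 : B 1 = b := by rw [hB]; rfl
  have h2 : B 2 = c := by rw [hB]; rfl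
  refine ⟨B.constr ℝ ![x, y, z], ?_, ?_, ?_⟩
  · rw [← h0, Module.Basis.constr_basis]; rfl
  · rw [← h1, Module.Basis.constr_basis]; rfl
  · rw [← h2, Module.Basis.constr_basis]; rfl

lemma ind3_swap {a b c : E} (h : Ind3 a b c) : Ind3 a c b := by
  rw [ind3_iff] at h ⊢
  intro x y z hxyz
  obtain ⟨h1, h2, h3⟩ := h x z y (by rw [← hxyz]; abel)
  exact ⟨h1, h3, h2⟩

lemma eq3 {a b c : E} (h : Ind3 a b c) {x y z x' y' z' : ℝ}
    (he : x • a + y • b + z • c = x' • a + y' • b + z' • c) : x = x' ∧ y = y' ∧ z = z' := by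
  rw [ind3_iff] at h
  obtain ⟨h1, h2, h3⟩ := h (x - x') (y - y') (z - z') (by
    have h4 := sub_eq_zero.2 he
    rw [← h4]
    module)
  exact ⟨by linarith, by linarith, by linarith⟩

/-! ## Affine maps -/

lemma apply_add (γ : Aff3) (x v : E) : γ (x + v) = γ x + γ.linear v := by
  have h := γ.map_vadd x v
  rw [vadd_eq_add, vadd_eq_add] at h
  rw [add_comm x v, h, add_comm]

lemma linear_mul (γ δ : Aff3) (v : E) : (γ * δ).linear v = γ.linear (δ.linear v) := rfl

lemma mul_apply (γ δ : Aff3) (x : E) : (γ * δ) x = γ (δ x) := rfl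

lemma linear_one (v : E) : (1 : Aff3).linear v = v := rfl

lemma inv_linear (γ : Aff3) (v : E) : γ⁻¹.linear (γ.linear v) = v := by
  rw [← linear_mul, inv_mul_cancel, linear_one]

lemma inv_app (γ : Aff3) (x : E) : γ⁻¹ (γ x) = x := by
  rw [← mul_apply, inv_mul_cancel]
  rfl

/-! ## The algebra of frames -/

lemma pow_apply {γ : Aff3} {μ c : ℝ} {p u s : E} (h : HypF γ μ c p u s) (n : ℕ) (x a b : ℝ) :
    (γ ^ n) (p + x • e 0 + a • u + b • s) =
      p + (x + n * c) • e 0 + (μ ^ n * a) • u + (μ⁻¹ ^ n * b) • s := by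
  obtain ⟨h1, h2, h3, h4, h5, h6⟩ := h
  induction n with
  | zero => simp
  | succ n ih =>
    rw [pow_succ', mul_apply, ih, apply_add, apply_add, apply_add, h5, map_smul, map_smul,
      map_smul, h2, h3, h4]
    push_cast
    module

lemma hyp_inv {γ : Aff3} {μ c : ℝ} {p u s : E} (h : HypF γ μ c p u s) :
    HypF γ⁻¹ μ (-c) p s u := by
  obtain ⟨h1, h2, h3, h4, h5, h6⟩ := h
  have hμ : μ ≠ 0 := by linarith
  refine ⟨h1, ?_, ?_, ?_, ?_, ind3_swap h6⟩
  · conv_lhs => rw [← h2]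
    exact inv_linear γ _
  · have h7 : s = γ.linear (μ • s) := by
      rw [map_smul, h4, smul_smul, mul_inv_cancel₀ hμ, one_smul]
    conv_lhs => rw [h7]
    exact inv_linear γ _
  · have h7 : u = γ.linear (μ⁻¹ • u) := by
      rw [map_smul, h3, smul_smul, inv_mul_cancel₀ hμ, one_smul]
    conv_lhs => rw [h7]
    exact inv_linear γ _
  · have h7 : p = γ (p + (-c) • e 0) := by
      rw [apply_add, map_smul, h2, h5, add_assoc, ← add_smul, add_neg_cancel, zero_smul, add_zero]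
    conv_lhs => rw [h7]
    exact inv_app γ _

lemma hyp_conj {γ : Aff3} {μ c : ℝ} {p u s : E} (h : Aff3) (lam : ℝ) (hγ : HypF γ μ c p u s)
    (hl : h.linear (e 0) = lam • e 0) (hlam : lam ≠ 0) :
    HypF (h * γ * h⁻¹) μ (lam * c) (h p) (h.linear u) (h.linear s) := by
  obtain ⟨h1, h2, h3, h4, h5, h6⟩ := hγ
  refine ⟨h1, ?_, ?_, ?_, ?_, ?_⟩
  · have h7 : e 0 = h.linear (lam⁻¹ • e 0) := by
      rw [map_smul, hl, smul_smul, inv_mul_cancel₀ hlam, one_smul]
    conv_lhs => rw [h7]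
    rw [linear_mul, linear_mul, inv_linear, map_smul, h2]
    exact h7.symm
  · rw [linear_mul, linear_mul, inv_linear, h3, map_smul]
  · rw [linear_mul, linear_mul, inv_linear, h4, map_smul]
  · rw [mul_apply, mul_apply, inv_app, h5, apply_add, map_smul, hl, smul_smul, mul_comm c lam]
  · rw [← Ind3, ind3_iff] at h6 ⊢
    intro x y z hxyz
    have h7 : h.linear ((x * lam⁻¹) • e 0 + y • u + z • s) = 0 := by
      rw [map_add, map_add, map_smul, map_smul, map_smul, hl, smul_smul, mul_assoc,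
        inv_mul_cancel₀ hlam, mul_one, hxyz]
    have h8 : (x * lam⁻¹) • e 0 + y • u + z • s = 0 := by
      have h9 := congrArg (h⁻¹.linear) h7
      rwa [inv_linear, map_zero] at h9
    obtain ⟨h9, h10, h11⟩ := h6 _ _ _ h8
    refine ⟨?_, h10, h11⟩
    rcases mul_eq_zero.1 h9 with h12 | h12
    · exact h12
    · exact absurd h12 (inv_ne_zero hlam)

lemma linear_pow_eigen {γ : Aff3} {v : E} {k : ℝ} (h : γ.linear v = k • v) (n : ℕ) :
    (γ ^ n).linear v = k ^ n • v := by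
  induction n with
  | zero => rw [pow_zero, pow_zero, one_smul, linear_one]
  | succ n ih => rw [pow_succ', linear_mul, ih, map_smul, h, smul_smul, pow_succ]

lemma hyp_pow {γ : Aff3} {μ c : ℝ} {p u s : E} (n : ℕ) (h : HypF γ μ c p u s) (hn : n ≠ 0) :
    HypF (γ ^ n) (μ ^ n) (n * c) p u s := by
  refine ⟨one_lt_pow₀ h.1 hn, ?_, linear_pow_eigen h.2.2.1 n, ?_, ?_, h.2.2.2.2.2⟩
  · have h7 := linear_pow_eigen (k := 1) (by rw [h.2.1, one_smul]) n
    rwa [one_pow, one_smul] at h7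
  · rw [linear_pow_eigen h.2.2.2.1 n, inv_pow]
  · have h7 := pow_apply h n 0 0 0
    simpa using h7

lemma hyp_unique {γ : Aff3} {μ c : ℝ} {p u s : E} {μ' c' : ℝ} {p' u' s' : E}
    (h : HypF γ μ c p u s) (h' : HypF γ μ' c' p' u' s') :
    c' = c ∧ μ' = μ ∧ (∃ a b : ℝ, u' = a • u ∧ s' = b • s) := by
  have hstep := pow_apply h 1
  obtain ⟨h1, h2, h3, h4, h5, h6⟩ := h
  obtain ⟨g1, g2, g3, g4, g5, g6⟩ := h'
  have hμ0 : 0 < μ := by linarith
  have hμ0' : 0 < μ' := by linarith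
  have hi : μ⁻¹ < 1 := inv_lt_one_of_one_lt₀ h1
  have hi' : μ'⁻¹ < 1 := inv_lt_one_of_one_lt₀ g1
  have hip : 0 < μ⁻¹ := inv_pos.2 hμ0
  have hip' : 0 < μ'⁻¹ := inv_pos.2 hμ0'
  have hu0 : u' ≠ 0 := by
    intro h0
    have := ind3_iff.1 g6 0 1 0 (by rw [h0]; simp)
    exact one_ne_zero this.2.1
  have hs0 : s' ≠ 0 := by
    intro h0
    have := ind3_iff.1 g6 0 0 1 (by rw [h0]; simp)
    exact one_ne_zero this.2.2
  -- the unstable direction
  obtain ⟨x, a, b, hx⟩ := span3 h6 u'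
  have e1 : x • e 0 + (μ * a) • u + (μ⁻¹ * b) • s = (μ' * x) • e 0 + (μ' * a) • u + (μ' * b) • s := by
    have := g3
    rw [hx, map_add, map_add, map_smul, map_smul, map_smul, h2, h3, h4] at this
    rw [smul_smul, smul_smul, smul_add, smul_add, smul_smul, smul_smul, smul_smul] at this
    rw [mul_comm a μ, mul_comm b μ⁻¹] at this
    exact this
  obtain ⟨e2, e3, e4⟩ := eq3 h6 e1
  have hx0 : x = 0 := by
    have : (μ' - 1) * x = 0 := by linarith
    rcases mul_eq_zero.1 this with h7 | h7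
    · linarith
    · exact h7
  have hb0 : b = 0 := by
    have : (μ' - μ⁻¹) * b = 0 := by linarith
    rcases mul_eq_zero.1 this with h7 | h7
    · linarith
    · exact h7
  have ha0 : a ≠ 0 := by
    intro h0
    apply hu0
    rw [hx, hx0, h0, hb0]
    simp
  have hμμ : μ' = μ := by
    have : (μ' - μ) * a = 0 := by linarith
    rcases mul_eq_zero.1 this with h7 | h7
    · linarith
    · exact absurd h7 ha0
  -- the stable direction
  obtain ⟨x2, a2, b2, hx2⟩ := span3 h6 s'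
  have f1 : x2 • e 0 + (μ * a2) • u + (μ⁻¹ * b2) • s =
      (μ'⁻¹ * x2) • e 0 + (μ'⁻¹ * a2) • u + (μ'⁻¹ * b2) • s := by
    have := g4
    rw [hx2, map_add, map_add, map_smul, map_smul, map_smul, h2, h3, h4] at this
    rw [smul_smul, smul_smul, smul_add, smul_add, smul_smul, smul_smul, smul_smul] at this
    rw [mul_comm a2 μ, mul_comm b2 μ⁻¹] at this
    exact this
  obtain ⟨f2, f3, f4⟩ := eq3 h6 f1
  have hx20 : x2 = 0 := by
    have : (1 - μ'⁻¹) * x2 = 0 := by linarith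
    rcases mul_eq_zero.1 this with h7 | h7
    · linarith
    · exact h7
  have ha20 : a2 = 0 := by
    have : (μ - μ'⁻¹) * a2 = 0 := by linarith
    rcases mul_eq_zero.1 this with h7 | h7
    · linarith
    · exact h7
  refine ⟨?_, hμμ, a, b2, ?_, ?_⟩
  · obtain ⟨x3, a3, b3, hx3⟩ := span3 h6 (p' - p)
    have k1 : p' = p + x3 • e 0 + a3 • u + b3 • s := by
      have : p' = p + (p' - p) := by abel
      rw [this, hx3]
      abel
    have k2 := hstep x3 a3 b3
    rw [← k1, pow_one, g5, k1] at k2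
    have k3 : (x3 + c') • e 0 + a3 • u + b3 • s =
        (x3 + c) • e 0 + (μ * a3) • u + (μ⁻¹ * b3) • s := by
      have k4 : p + x3 • e 0 + a3 • u + b3 • s + c' • e 0 =
          p + ((x3 + c') • e 0 + a3 • u + b3 • s) := by module
      rw [k4] at k2
      have k5 : p + (x3 + ((1 : ℕ) : ℝ) * c) • e 0 + (μ ^ 1 * a3) • u + (μ⁻¹ ^ 1 * b3) • s =
          p + ((x3 + c) • e 0 + (μ * a3) • u + (μ⁻¹ * b3) • s) := by
        rw [pow_one, pow_one, Nat.cast_one, one_mul]
        abel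
      rw [k5] at k2
      exact add_left_cancel k2
    obtain ⟨k6, -, -⟩ := eq3 h6 k3
    linarith
  · rw [hx, hx0, hb0]
    simp
  · rw [hx2, hx20, ha20]
    simp

/-! ## Existence -/

lemma eig2 (a b c d k : ℝ) (h : (a - k) * (d - k) - b * c = 0) :
    ∃ x y : ℝ, (x ≠ 0 ∨ y ≠ 0) ∧ a * x + b * y = k * x ∧ c * x + d * y = k * y := by
  by_cases h1 : b = 0 ∧ k - a = 0
  · obtain ⟨hb, hk⟩ := h1
    by_cases h2 : k - d = 0 ∧ c = 0
    · refine ⟨1, 0, Or.inl one_ne_zero, by linarith, ?_⟩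
      rw [h2.2]
      ring
    · refine ⟨k - d, c, ?_, ?_, by ring⟩
      · by_contra h3
        push Not at h3
        exact h2 h3
      · have : a = k := by linarith
        rw [hb, this]
        ring
  · refine ⟨b, k - a, ?_, by ring, by linarith⟩
    by_contra h3
    push Not at h3
    exact h1 h3

lemma ind_of_eig {γ : Aff3} {μ : ℝ} {u s : E} (hμ : 1 < μ) (h0 : γ.linear (e 0) = e 0)
    (hu : γ.linear u = μ • u) (hs : γ.linear s = μ⁻¹ • s) (hu0 : u ≠ 0) (hs0 : s ≠ 0) :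
    Ind3 (e 0) u s := by
  have hi : μ⁻¹ < 1 := inv_lt_one_of_one_lt₀ hμ
  have he0 : (e 0 : E) ≠ 0 := by
    intro h
    have := congrFun h 0
    simp [e] at this
  rw [ind3_iff]
  intro x y z hA
  have hB : x • e 0 + (y * μ) • u + (z * μ⁻¹) • s = 0 := by
    have := congrArg γ.linear hA
    rw [map_add, map_add, map_smul, map_smul, map_smul, h0, hu, hs, map_zero, smul_smul,
      smul_smul] at this
    exact this
  have hC : ((1 - μ⁻¹) * x) • (e 0 : E) + ((μ - μ⁻¹) * y) • u = 0 := by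
    have h1 : ((1 - μ⁻¹) * x) • (e 0 : E) + ((μ - μ⁻¹) * y) • u =
        (x • e 0 + (y * μ) • u + (z * μ⁻¹) • s) - μ⁻¹ • (x • e 0 + y • u + z • s) := by
      module
    rw [h1, hA, hB]
    simp
  have hD : ((1 - μ⁻¹) * x) • (e 0 : E) + ((μ - μ⁻¹) * y * μ) • u = 0 := by
    have := congrArg γ.linear hC
    rw [map_add, map_smul, map_smul, h0, hu, map_zero, smul_smul] at this
    exact this
  have hy : ((μ - μ⁻¹) * y * (μ - 1)) • u = 0 := by
    have h1 : ((μ - μ⁻¹) * y * (μ - 1)) • u =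
        (((1 - μ⁻¹) * x) • (e 0 : E) + ((μ - μ⁻¹) * y * μ) • u) -
          (((1 - μ⁻¹) * x) • (e 0 : E) + ((μ - μ⁻¹) * y) • u) := by
      module
    rw [h1, hC, hD, sub_zero]
  have hy0 : y = 0 := by
    rcases smul_eq_zero.1 hy with h1 | h1
    · rcases mul_eq_zero.1 h1 with h2 | h2
      · rcases mul_eq_zero.1 h2 with h3 | h3
        · linarith
        · exact h3
      · linarith
    · exact absurd h1 hu0
  rw [hy0, mul_zero, zero_smul, add_zero] at hC
  have hx0 : x = 0 := by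
    rcases smul_eq_zero.1 hC with h1 | h1
    · rcases mul_eq_zero.1 h1 with h2 | h2
      · linarith
      · exact h2
    · exact absurd h1 he0
  rw [hy0, hx0, zero_smul, zero_smul, zero_add, zero_add] at hA
  refine ⟨hx0, hy0, ?_⟩
  rcases smul_eq_zero.1 hA with h1 | h1
  · exact h1
  · exact absurd h1 hs0

lemma hyp_exists (γ : Aff3) (μ : ℝ) (h00 : lin γ 0 0 = 1) (h10 : lin γ 1 0 = 0)
    (h20 : lin γ 2 0 = 0) (hμ : 1 < μ) (htr : lin γ 1 1 + lin γ 2 2 = μ + μ⁻¹)
    (hdet : lin γ 1 1 * lin γ 2 2 - lin γ 1 2 * lin γ 2 1 = 1) :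
    ∃ c p u s, HypF γ μ c p u s := by
  have hμ0 : μ ≠ 0 := by linarith
  have hi : μ⁻¹ < 1 := inv_lt_one_of_one_lt₀ hμ
  have hmi : μ * μ⁻¹ = 1 := mul_inv_cancel₀ hμ0
  have he0 : γ.linear (e 0) = e 0 := by
    ext i
    show lin γ i 0 = (e 0 : E) i
    fin_cases i
    · simpa [e] using h00
    · simpa [e] using h10
    · simpa [e] using h20
  have key : ∀ k : ℝ, k ≠ 1 → (lin γ 1 1 - k) * (lin γ 2 2 - k) - lin γ 1 2 * lin γ 2 1 = 0 →
      ∃ u : E, u ≠ 0 ∧ γ.linear u = k • u := by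
    intro k hk hdk
    obtain ⟨x, y, hxy, h1, h2⟩ := eig2 _ _ _ _ k hdk
    refine ⟨![(lin γ 0 1 * x + lin γ 0 2 * y) / (k - 1), x, y], ?_, ?_⟩
    · intro h3
      rcases hxy with h4 | h4
      · exact h4 (congrFun h3 1)
      · exact h4 (congrFun h3 2)
    · have hk1 : k - 1 ≠ 0 := sub_ne_zero.2 hk
      ext i
      rw [Helper33.K3.linear_eq]
      fin_cases i
      · simp [h00]
        field_simp
        ring
      · simp [h10]
        linarith
      · simp [h20]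
        linarith
  obtain ⟨u, hu0, hu⟩ := key μ (by linarith) (by nlinarith)
  obtain ⟨s, hs0, hs⟩ := key μ⁻¹ (by linarith) (by nlinarith)
  have hD : (lin γ 1 1 - 1) * (lin γ 2 2 - 1) - lin γ 1 2 * lin γ 2 1 ≠ 0 := by
    have h1 : (lin γ 1 1 - 1) * (lin γ 2 2 - 1) - lin γ 1 2 * lin γ 2 1 = 2 - μ - μ⁻¹ := by
      linarith
    rw [h1]
    intro h2
    have h3 : (μ - 1) * (1 - μ⁻¹) = 0 := by linarith
    rcases mul_eq_zero.1 h3 with h4 | h4 <;> linarith
  set Δ : ℝ := (lin γ 1 1 - 1) * (lin γ 2 2 - 1) - lin γ 1 2 * lin γ 2 1 with hΔ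
  set p1 : ℝ := (-tr γ 1 * (lin γ 2 2 - 1) + tr γ 2 * lin γ 1 2) / Δ with hp1
  set p2 : ℝ := (-tr γ 2 * (lin γ 1 1 - 1) + tr γ 1 * lin γ 2 1) / Δ with hp2
  refine ⟨lin γ 0 1 * p1 + lin γ 0 2 * p2 + tr γ 0, ![0, p1, p2], u, s, hμ, he0, hu, hs, ?_,
    ind_of_eig hμ he0 hu hs hu0 hs0⟩
  ext i
  rw [Helper33.K3.apply_coord]
  fin_cases i
  · simp [e]
  · simp [e]
    rw [hp1, hp2]
    field_simp
    rw [hΔ]
    ring
  · simp [e]
    rw [hp1, hp2]
    field_simp
    rw [hΔ]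
    ring

theorem frame : S_frame :=
  ⟨fun _ _ _ _ _ _ h n x a b => pow_apply h n x a b,
    fun _ _ _ _ _ _ h => hyp_inv h,
    fun _ _ _ _ _ _ h lam hγ hl hlam => hyp_conj h lam hγ hl hlam,
    fun _ _ _ _ _ _ n h hn => hyp_pow n h hn,
    fun _ _ _ _ _ _ _ _ _ _ _ h h' => hyp_unique h h',
    hyp_exists⟩

end Pool.Agent.Helper55.K3.frame
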